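import Pool.Agent.BetaK.Basic

/-!
# The tournaments on `5 k + m + 5` vertices: definitions and counting of intervals
-/

set_option autoImplicit false

namespace Pool.Agent.BKG

open Pool.Agent.BetaK

/-- the arcs of `T` out of `i` in `L` -/
def TL (k m i j : ℕ) : Prop :=
  if j ≤ 2 * k + m then (i < j ∧ j ≤ i + k + m) ∨ j + k + m + 1 ≤ i
  else if j ≤ 2 * k + m + 5 then ¬ (i ≤ 3 ∧ j = 2 * k + m + 1 + i)
  else if j = 2 * k + m + 7 then ¬ (4 ≤ i ∧ i < k)
  else True

/-- the arcs of `T` out of `i` in `Y` -/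
def TY (k m i j : ℕ) : Prop :=
  if j ≤ 2 * k + m then j ≤ 3 ∧ i = 2 * k + m + 1 + j
  else if j ≤ 2 * k + m + 5 then (i < j ∧ j ≤ i + 2) ∨ j + 3 ≤ i
  else if j = 2 * k + m + 6 then i = 2 * k + m + 5
  else True

/-- the arcs of `T` out of `i` in `X` -/
def TX (k m i j : ℕ) : Prop :=
  if j ≤ 2 * k + m + 6 then False
  else if j = 2 * k + m + 7 then i ≤ 3 * k + m + 2
  else if j ≤ 3 * k + m + 3 then
    (i < j ∧ ¬ (3 * k + m - 1 ≤ i ∧ i + 3 ≤ j)) ∨ (3 * k + m - 1 ≤ j ∧ j + 3 ≤ i)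
  else ¬ (i ≤ 3 * k + m + 2 ∧ j + 3 = i + 2 * k)

/-- the arcs of `T` out of `i` in `R` -/
def TR (k m i j : ℕ) : Prop :=
  if j ≤ 2 * k + m + 5 then False
  else if j = 2 * k + m + 6 then 5 * k + m ≤ i
  else if j = 2 * k + m + 7 then False
  else if j ≤ 3 * k + m + 3 then j ≤ 3 * k + m + 2 ∧ i + 3 = j + 2 * k
  else (i < j ∧ j ≤ i + k) ∨ j + k + 1 ≤ i

/-- the arcs of the tournament, vertices are the numbers below `5 k + m + 5`: `L` is
`0 .. 2k+m`, `Y` is `2k+m+1 .. 2k+m+5`, `u = 2k+m+6`, `v = 2k+m+7`, `X` is `2k+m+8 .. 3k+m+3`,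
`R` is `3k+m+4 .. 5k+m+4` -/
def TT (k m i j : ℕ) : Prop :=
  if i ≤ 2 * k + m then TL k m i j
  else if i ≤ 2 * k + m + 5 then TY k m i j
  else if i = 2 * k + m + 6 then
    (2 * k + m + 1 ≤ j ∧ j ≤ 2 * k + m + 4) ∨ (2 * k + m + 7 ≤ j ∧ j < 5 * k + m)
  else if i = 2 * k + m + 7 then (4 ≤ j ∧ j < k) ∨ 3 * k + m + 3 ≤ j
  else if i ≤ 3 * k + m + 3 then TX k m i j
  else TR k m i j

/-- the arcs of `D` out of `i` in `L` -/
def DL (k m i j : ℕ) : Prop :=
  if j ≤ 2 * k + m then (i < j ∧ j ≤ i + k) ∨ j + k + m + 2 ≤ i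
  else if j ≤ 2 * k + m + 3 then k + m + 1 ≤ i ∧ i + 2 < 2 * k + m
  else if j = 2 * k + m + 4 then k + m + 4 ≤ i
  else if j = 2 * k + m + 5 then k + m + 1 ≤ i ∧ i + 1 < 2 * k + m
  else if j = 2 * k + m + 6 then k + m + 1 ≤ i ∧ i + 5 < 2 * k + m
  else if j = 2 * k + m + 7 then False
  else k + m + 1 ≤ i ∧ i + j < 4 * k + 2 * m + 2 ∧ j + 2 ≤ 3 * k + m

/-- the arcs of `D` out of `i` in `Y` -/
def DY (k m i j : ℕ) : Prop :=
  if j ≤ 2 * k + m then j ≤ 3 ∧ i = 2 * k + m + 1 + j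
  else if j ≤ 2 * k + m + 5 then (i < j ∧ j ≤ i + 2) ∨ j + 3 ≤ i
  else if j = 2 * k + m + 6 then i = 2 * k + m + 5
  else j ≤ 3 * k + m + 3

/-- the arcs of `D` out of `i` in `X` -/
def DX (k m i j : ℕ) : Prop :=
  if j ≤ 2 * k + m + 6 then False
  else if j = 2 * k + m + 7 then i ≤ 3 * k + m + 2
  else if j ≤ 3 * k + m + 3 then
    (i < j ∧ ¬ (3 * k + m - 1 ≤ i ∧ i + 3 ≤ j)) ∨ (3 * k + m - 1 ≤ j ∧ j + 3 ≤ i)
  else if i + 2 ≤ 3 * k + m then j < i + k
  else if i ≤ 3 * k + m + 1 then j < 4 * k + m + 1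
  else if i = 3 * k + m + 2 then 3 * k + m + 7 ≤ j ∧ j < 4 * k + m + 4
  else j < 4 * k + m + 2

/-- the arcs of `D` out of `i` in `R` -/
def DR (k m i j : ℕ) : Prop :=
  if j ≤ 2 * k + m + 5 then False
  else if j = 2 * k + m + 6 then 5 * k + m ≤ i
  else if j = 2 * k + m + 7 then False
  else if j ≤ 3 * k + m + 3 then j ≤ 3 * k + m + 2 ∧ i + 3 = j + 2 * k
  else (i < j ∧ j ≤ i + k) ∨ j + k + 2 ≤ i

/-- the arcs of the subdigraph with the least number of arcs -/
def DD (k m i j : ℕ) : Prop :=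
  if i ≤ 2 * k + m then DL k m i j
  else if i ≤ 2 * k + m + 5 then DY k m i j
  else if i = 2 * k + m + 6 then
    (2 * k + m + 1 ≤ j ∧ j ≤ 2 * k + m + 4) ∨ (2 * k + m + 8 ≤ j ∧ j ≤ 3 * k + m + 3)
  else if i = 2 * k + m + 7 then
    (4 ≤ j ∧ j < k) ∨ (3 * k + m + 3 ≤ j ∧ j < 3 * k + m + 7)
  else if i ≤ 3 * k + m + 3 then DX k m i j
  else DR k m i j

theorem DD_TT {k m i j : ℕ} (hk : 9 ≤ k) (h : DD k m i j) : TT k m i j := by
  unfold DD at h
  unfold TT
  split_ifs at h ⊢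
  · unfold DL at h
    unfold TL
    split_ifs at h ⊢ <;> first | trivial | omega
  · unfold DY at h
    unfold TY
    split_ifs at h ⊢ <;> first | trivial | omega
  · omega
  · omega
  · unfold DX at h
    unfold TX
    split_ifs at h ⊢ <;> first | trivial | omega
  · unfold DR at h
    unfold TR
    split_ifs at h ⊢ <;> first | trivial | omega

theorem TT_irrefl {k m i : ℕ} (hk : 9 ≤ k) : ¬ TT k m i i := by
  intro h
  unfold TT TL TY TX TR at h
  split_ifs at h <;> omega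

theorem TT_asymm {k m i j : ℕ} (hk : 9 ≤ k) (hij : i < j) (h : TT k m i j) : ¬ TT k m j i := by
  intro h'
  unfold TT at h
  split_ifs at h
  all_goals first
    | (unfold TL at h; split_ifs at h)
    | (unfold TY at h; split_ifs at h)
    | (unfold TX at h; split_ifs at h)
    | (unfold TR at h; split_ifs at h)
    | skip
  all_goals first
    | omega
    | (unfold TT at h'; split_ifs at h'
       all_goals first
        | omega
        | (unfold TL at h'; split_ifs at h' <;> omega)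
        | (unfold TY at h'; split_ifs at h' <;> omega)
        | (unfold TX at h'; split_ifs at h' <;> omega)
        | (unfold TR at h'; split_ifs at h' <;> omega))

theorem TT_total {k m i j : ℕ} (hk : 9 ≤ k) (hij : i < j) (hj : j < 5 * k + m + 5) (h : ¬ TT k m i j) :
    TT k m j i := by
  unfold TT at h
  split_ifs at h
  all_goals first
    | (unfold TL at h; split_ifs at h)
    | (unfold TY at h; split_ifs at h)
    | (unfold TX at h; split_ifs at h)
    | (unfold TR at h; split_ifs at h)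
    | skip
  all_goals first
    | omega
    | (exact absurd trivial h)
    | (unfold TT; split_ifs
       all_goals first
        | omega
        | (unfold TL; split_ifs <;> first | trivial | omega)
        | (unfold TY; split_ifs <;> first | trivial | omega)
        | (unfold TX; split_ifs <;> first | trivial | omega)
        | (unfold TR; split_ifs <;> first | trivial | omega))

open Classical in
/-- number of the `j` in `[a, b)` with `P j` -/
noncomputable def cnt (P : ℕ → Prop) (a b : ℕ) : ℕ := ((Finset.Ico a b).filter P).card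

theorem cnt_nil (P : ℕ → Prop) (a : ℕ) : cnt P a a = 0 := by simp [cnt]

theorem cnt_split {P : ℕ → Prop} {a b c : ℕ} (hab : a ≤ b) (hbc : b ≤ c) :
    cnt P a c = cnt P a b + cnt P b c := by
  classical
  unfold cnt
  rw [← Finset.card_union_of_disjoint, ← Finset.filter_union, Finset.Ico_union_Ico_eq_Ico hab hbc]
  exact Finset.disjoint_filter_filter (Finset.Ico_disjoint_Ico_consecutive a b c)

theorem cnt_T {P : ℕ → Prop} {a b c m : ℕ} (hab : a ≤ b) (hbc : b ≤ c)
    (h : ∀ j, a ≤ j → j < b → P j) (hr : cnt P b c = m) : cnt P a c = (b - a) + m := by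
  classical
  rw [cnt_split hab hbc, hr]
  congr 1
  unfold cnt
  rw [Finset.filter_true_of_mem, Nat.card_Ico]
  intro j hj
  rw [Finset.mem_Ico] at hj
  exact h j hj.1 hj.2

theorem cnt_F {P : ℕ → Prop} {a b c m : ℕ} (hab : a ≤ b) (hbc : b ≤ c)
    (h : ∀ j, a ≤ j → j < b → ¬ P j) (hr : cnt P b c = m) : cnt P a c = m := by
  classical
  rw [cnt_split hab hbc, hr]
  have : cnt P a b = 0 := by
    unfold cnt
    rw [Finset.filter_false_of_mem, Finset.card_empty]
    intro j hj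
    rw [Finset.mem_Ico] at hj
    exact h j hj.1 hj.2
  omega

theorem cnt_ge {P : ℕ → Prop} {a b c d m : ℕ} (hab : a ≤ b) (hbc : b ≤ c) (hcd : c ≤ d)
    (h : ∀ j, b ≤ j → j < c → P j) (hr : m ≤ cnt P c d) : (c - b) + m ≤ cnt P a d := by
  have h1 := cnt_split (P := P) hab (hbc.trans hcd)
  have h2 := cnt_T hbc hcd h rfl
  omega

open Classical in
/-- the tournament -/
noncomputable def tT (k m : ℕ) : Finset (Fin (5 * k + m + 5) × Fin (5 * k + m + 5)) :=
  Finset.univ.filter fun a => TT k m a.1 a.2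

open Classical in
/-- the subdigraph with the least number of arcs -/
noncomputable def tD (k m : ℕ) : Finset (Fin (5 * k + m + 5) × Fin (5 * k + m + 5)) :=
  Finset.univ.filter fun a => DD k m a.1 a.2

theorem mem_tT {k m : ℕ} {a : Fin (5 * k + m + 5) × Fin (5 * k + m + 5)} :
    a ∈ tT k m ↔ TT k m a.1 a.2 := by simp [tT]

theorem mem_tD {k m : ℕ} {a : Fin (5 * k + m + 5) × Fin (5 * k + m + 5)} :
    a ∈ tD k m ↔ DD k m a.1 a.2 := by simp [tD]

theorem tournament {k m : ℕ} (hk : 9 ≤ k) : IsTournament (tT k m) := by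
  constructor
  · intro v hv
    rw [mem_tT] at hv
    exact TT_irrefl hk hv
  · intro u v huv
    rw [mem_tT, mem_tT]
    rcases lt_or_gt_of_ne (fun h => huv (Fin.ext h) : (u : ℕ) ≠ v) with h | h
    · exact ⟨fun h1 => TT_asymm hk h h1, fun h1 => by
        by_contra h2
        exact h1 (TT_total hk h v.isLt h2)⟩
    · exact ⟨fun h1 h2 => TT_asymm hk h h2 h1, fun h1 => TT_total hk h u.isLt h1⟩

theorem tD_sub {k m : ℕ} (hk : 9 ≤ k) : tD k m ⊆ tT k m := by
  intro a ha
  rw [mem_tD] at ha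
  rw [mem_tT]
  exact DD_TT hk ha

theorem out_card {k m : ℕ} (v : Fin (5 * k + m + 5)) :
    ((tD k m).filter fun a => a.1 = v).card = cnt (fun j => DD k m v j) 0 (5 * k + m + 5) := by
  classical
  unfold cnt
  refine Finset.card_bij (fun a _ => (a.2 : ℕ)) ?_ ?_ ?_
  · intro a ha
    rw [Finset.mem_filter, mem_tD] at ha
    rw [Finset.mem_filter, Finset.mem_Ico]
    exact ⟨⟨Nat.zero_le _, a.2.isLt⟩, ha.2 ▸ ha.1⟩
  · intro a ha b hb hab
    rw [Finset.mem_filter] at ha hb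
    exact Prod.ext (ha.2.trans hb.2.symm) (Fin.ext hab)
  · intro j hj
    rw [Finset.mem_filter, Finset.mem_Ico] at hj
    exact ⟨(v, ⟨j, hj.1.2⟩), Finset.mem_filter.2 ⟨mem_tD.2 hj.2, rfl⟩, rfl⟩

theorem in_card {k m : ℕ} (v : Fin (5 * k + m + 5)) :
    ((tD k m).filter fun a => a.2 = v).card = cnt (fun j => DD k m j v) 0 (5 * k + m + 5) := by
  classical
  unfold cnt
  refine Finset.card_bij (fun a _ => (a.1 : ℕ)) ?_ ?_ ?_
  · intro a ha
    rw [Finset.mem_filter, mem_tD] at ha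
    rw [Finset.mem_filter, Finset.mem_Ico]
    exact ⟨⟨Nat.zero_le _, a.1.isLt⟩, ha.2 ▸ ha.1⟩
  · intro a ha b hb hab
    rw [Finset.mem_filter] at ha hb
    exact Prod.ext (Fin.ext hab) (ha.2.trans hb.2.symm)
  · intro j hj
    rw [Finset.mem_filter, Finset.mem_Ico] at hj
    exact ⟨(⟨j, hj.1.2⟩, v), Finset.mem_filter.2 ⟨mem_tD.2 hj.2, rfl⟩, rfl⟩

end Pool.Agent.BKG
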