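import Pool.Agent.BKG.Defs

/-!
# In-degrees of the subdigraph
-/

set_option autoImplicit false

namespace Pool.Agent.BKG

theorem in_L1 {k m i : ℕ} (hk : 9 ≤ k) (h : i ≤ 3) :
    cnt (fun j => DD k m j (i)) 0 (5 * k + m + 5) = k := by
  have h0 := cnt_nil (fun j => DD k m j (i)) (5 * k + m + 5)
  have h1 := cnt_F (P := fun j => DD k m j (i)) (a := 2 * k + m + 2 + i) (b := 5 * k + m + 5)
    (c := 5 * k + m + 5) (by omega) (by omega)
    (by intro j h1 h2; unfold DD; split_ifs <;> first | omega | (unfold DL; split_ifs <;> first | omega | exact not_false) | (unfold DY; split_ifs <;> first | omega | exact not_false) | (unfold DX; split_ifs <;> first | omega | exact not_false) | (unfold DR; split_ifs <;> first | omega | exact not_false)) h0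
  have h2 := cnt_T (P := fun j => DD k m j (i)) (a := 2 * k + m + 1 + i) (b := 2 * k + m + 2 + i)
    (c := 5 * k + m + 5) (by omega) (by omega)
    (by intro j h1 h2; unfold DD; split_ifs <;> first | omega | (unfold DL; split_ifs <;> first | omega | exact not_false) | (unfold DY; split_ifs <;> first | omega | exact not_false) | (unfold DX; split_ifs <;> first | omega | exact not_false) | (unfold DR; split_ifs <;> first | omega | exact not_false)) h1
  have h3 := cnt_F (P := fun j => DD k m j (i)) (a := 2 * k + m + 1) (b := 2 * k + m + 1 + i)
    (c := 5 * k + m + 5) (by omega) (by omega)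
    (by intro j h1 h2; unfold DD; split_ifs <;> first | omega | (unfold DL; split_ifs <;> first | omega | exact not_false) | (unfold DY; split_ifs <;> first | omega | exact not_false) | (unfold DX; split_ifs <;> first | omega | exact not_false) | (unfold DR; split_ifs <;> first | omega | exact not_false)) h2
  have h4 := cnt_T (P := fun j => DD k m j (i)) (a := i + k + m + 2) (b := 2 * k + m + 1)
    (c := 5 * k + m + 5) (by omega) (by omega)
    (by intro j h1 h2; unfold DD; split_ifs <;> first | omega | (unfold DL; split_ifs <;> first | omega | exact not_false) | (unfold DY; split_ifs <;> first | omega | exact not_false) | (unfold DX; split_ifs <;> first | omega | exact not_false) | (unfold DR; split_ifs <;> first | omega | exact not_false)) h3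
  have h5 := cnt_F (P := fun j => DD k m j (i)) (a := i) (b := i + k + m + 2)
    (c := 5 * k + m + 5) (by omega) (by omega)
    (by intro j h1 h2; unfold DD; split_ifs <;> first | omega | (unfold DL; split_ifs <;> first | omega | exact not_false) | (unfold DY; split_ifs <;> first | omega | exact not_false) | (unfold DX; split_ifs <;> first | omega | exact not_false) | (unfold DR; split_ifs <;> first | omega | exact not_false)) h4
  have h6 := cnt_T (P := fun j => DD k m j (i)) (a := 0) (b := i)
    (c := 5 * k + m + 5) (by omega) (by omega)
    (by intro j h1 h2; unfold DD; split_ifs <;> first | omega | (unfold DL; split_ifs <;> first | omega | exact not_false) | (unfold DY; split_ifs <;> first | omega | exact not_false) | (unfold DX; split_ifs <;> first | omega | exact not_false) | (unfold DR; split_ifs <;> first | omega | exact not_false)) h5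
  omega

theorem in_L2 {k m i : ℕ} (hk : 9 ≤ k) (h : 4 ≤ i) (h' : i < k) :
    cnt (fun j => DD k m j (i)) 0 (5 * k + m + 5) = k := by
  have h0 := cnt_nil (fun j => DD k m j (i)) (5 * k + m + 5)
  have h1 := cnt_F (P := fun j => DD k m j (i)) (a := 2 * k + m + 8) (b := 5 * k + m + 5)
    (c := 5 * k + m + 5) (by omega) (by omega)
    (by intro j h1 h2; unfold DD; split_ifs <;> first | omega | (unfold DL; split_ifs <;> first | omega | exact not_false) | (unfold DY; split_ifs <;> first | omega | exact not_false) | (unfold DX; split_ifs <;> first | omega | exact not_false) | (unfold DR; split_ifs <;> first | omega | exact not_false)) h0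
  have h2 := cnt_T (P := fun j => DD k m j (i)) (a := 2 * k + m + 7) (b := 2 * k + m + 8)
    (c := 5 * k + m + 5) (by omega) (by omega)
    (by intro j h1 h2; unfold DD; split_ifs <;> first | omega | (unfold DL; split_ifs <;> first | omega | exact not_false) | (unfold DY; split_ifs <;> first | omega | exact not_false) | (unfold DX; split_ifs <;> first | omega | exact not_false) | (unfold DR; split_ifs <;> first | omega | exact not_false)) h1
  have h3 := cnt_F (P := fun j => DD k m j (i)) (a := 2 * k + m + 1) (b := 2 * k + m + 7)
    (c := 5 * k + m + 5) (by omega) (by omega)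
    (by intro j h1 h2; unfold DD; split_ifs <;> first | omega | (unfold DL; split_ifs <;> first | omega | exact not_false) | (unfold DY; split_ifs <;> first | omega | exact not_false) | (unfold DX; split_ifs <;> first | omega | exact not_false) | (unfold DR; split_ifs <;> first | omega | exact not_false)) h2
  have h4 := cnt_T (P := fun j => DD k m j (i)) (a := i + k + m + 2) (b := 2 * k + m + 1)
    (c := 5 * k + m + 5) (by omega) (by omega)
    (by intro j h1 h2; unfold DD; split_ifs <;> first | omega | (unfold DL; split_ifs <;> first | omega | exact not_false) | (unfold DY; split_ifs <;> first | omega | exact not_false) | (unfold DX; split_ifs <;> first | omega | exact not_false) | (unfold DR; split_ifs <;> first | omega | exact not_false)) h3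
  have h5 := cnt_F (P := fun j => DD k m j (i)) (a := i) (b := i + k + m + 2)
    (c := 5 * k + m + 5) (by omega) (by omega)
    (by intro j h1 h2; unfold DD; split_ifs <;> first | omega | (unfold DL; split_ifs <;> first | omega | exact not_false) | (unfold DY; split_ifs <;> first | omega | exact not_false) | (unfold DX; split_ifs <;> first | omega | exact not_false) | (unfold DR; split_ifs <;> first | omega | exact not_false)) h4
  have h6 := cnt_T (P := fun j => DD k m j (i)) (a := 0) (b := i)
    (c := 5 * k + m + 5) (by omega) (by omega)
    (by intro j h1 h2; unfold DD; split_ifs <;> first | omega | (unfold DL; split_ifs <;> first | omega | exact not_false) | (unfold DY; split_ifs <;> first | omega | exact not_false) | (unfold DX; split_ifs <;> first | omega | exact not_false) | (unfold DR; split_ifs <;> first | omega | exact not_false)) h5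
  omega

theorem in_L3 {k m i : ℕ} (hk : 9 ≤ k) (h : k ≤ i) (h' : i ≤ 2 * k + m) :
    cnt (fun j => DD k m j (i)) 0 (5 * k + m + 5) = k := by
  have h0 := cnt_nil (fun j => DD k m j (i)) (5 * k + m + 5)
  have h1 := cnt_F (P := fun j => DD k m j (i)) (a := i) (b := 5 * k + m + 5)
    (c := 5 * k + m + 5) (by omega) (by omega)
    (by intro j h1 h2; unfold DD; split_ifs <;> first | omega | (unfold DL; split_ifs <;> first | omega | exact not_false) | (unfold DY; split_ifs <;> first | omega | exact not_false) | (unfold DX; split_ifs <;> first | omega | exact not_false) | (unfold DR; split_ifs <;> first | omega | exact not_false)) h0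
  have h2 := cnt_T (P := fun j => DD k m j (i)) (a := i - k) (b := i)
    (c := 5 * k + m + 5) (by omega) (by omega)
    (by intro j h1 h2; unfold DD; split_ifs <;> first | omega | (unfold DL; split_ifs <;> first | omega | exact not_false) | (unfold DY; split_ifs <;> first | omega | exact not_false) | (unfold DX; split_ifs <;> first | omega | exact not_false) | (unfold DR; split_ifs <;> first | omega | exact not_false)) h1
  have h3 := cnt_F (P := fun j => DD k m j (i)) (a := 0) (b := i - k)
    (c := 5 * k + m + 5) (by omega) (by omega)
    (by intro j h1 h2; unfold DD; split_ifs <;> first | omega | (unfold DL; split_ifs <;> first | omega | exact not_false) | (unfold DY; split_ifs <;> first | omega | exact not_false) | (unfold DX; split_ifs <;> first | omega | exact not_false) | (unfold DR; split_ifs <;> first | omega | exact not_false)) h2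
  omega

theorem in_Y0 {k m : ℕ} (hk : 9 ≤ k) :
    cnt (fun j => DD k m j (2 * k + m + 1)) 0 (5 * k + m + 5) = k := by
  have h0 := cnt_nil (fun j => DD k m j (2 * k + m + 1)) (5 * k + m + 5)
  have h1 := cnt_F (P := fun j => DD k m j (2 * k + m + 1)) (a := 2 * k + m + 7) (b := 5 * k + m + 5)
    (c := 5 * k + m + 5) (by omega) (by omega)
    (by intro j h1 h2; unfold DD; split_ifs <;> first | omega | (unfold DL; split_ifs <;> first | omega | exact not_false) | (unfold DY; split_ifs <;> first | omega | exact not_false) | (unfold DX; split_ifs <;> first | omega | exact not_false) | (unfold DR; split_ifs <;> first | omega | exact not_false)) h0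
  have h2 := cnt_T (P := fun j => DD k m j (2 * k + m + 1)) (a := 2 * k + m + 4) (b := 2 * k + m + 7)
    (c := 5 * k + m + 5) (by omega) (by omega)
    (by intro j h1 h2; unfold DD; split_ifs <;> first | omega | (unfold DL; split_ifs <;> first | omega | exact not_false) | (unfold DY; split_ifs <;> first | omega | exact not_false) | (unfold DX; split_ifs <;> first | omega | exact not_false) | (unfold DR; split_ifs <;> first | omega | exact not_false)) h1
  have h3 := cnt_F (P := fun j => DD k m j (2 * k + m + 1)) (a := 2 * k + m - 2) (b := 2 * k + m + 4)
    (c := 5 * k + m + 5) (by omega) (by omega)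
    (by intro j h1 h2; unfold DD; split_ifs <;> first | omega | (unfold DL; split_ifs <;> first | omega | exact not_false) | (unfold DY; split_ifs <;> first | omega | exact not_false) | (unfold DX; split_ifs <;> first | omega | exact not_false) | (unfold DR; split_ifs <;> first | omega | exact not_false)) h2
  have h4 := cnt_T (P := fun j => DD k m j (2 * k + m + 1)) (a := k + m + 1) (b := 2 * k + m - 2)
    (c := 5 * k + m + 5) (by omega) (by omega)
    (by intro j h1 h2; unfold DD; split_ifs <;> first | omega | (unfold DL; split_ifs <;> first | omega | exact not_false) | (unfold DY; split_ifs <;> first | omega | exact not_false) | (unfold DX; split_ifs <;> first | omega | exact not_false) | (unfold DR; split_ifs <;> first | omega | exact not_false)) h3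
  have h5 := cnt_F (P := fun j => DD k m j (2 * k + m + 1)) (a := 0) (b := k + m + 1)
    (c := 5 * k + m + 5) (by omega) (by omega)
    (by intro j h1 h2; unfold DD; split_ifs <;> first | omega | (unfold DL; split_ifs <;> first | omega | exact not_false) | (unfold DY; split_ifs <;> first | omega | exact not_false) | (unfold DX; split_ifs <;> first | omega | exact not_false) | (unfold DR; split_ifs <;> first | omega | exact not_false)) h4
  omega

theorem in_Y1 {k m : ℕ} (hk : 9 ≤ k) :
    cnt (fun j => DD k m j (2 * k + m + 2)) 0 (5 * k + m + 5) = k := by
  have h0 := cnt_nil (fun j => DD k m j (2 * k + m + 2)) (5 * k + m + 5)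
  have h1 := cnt_F (P := fun j => DD k m j (2 * k + m + 2)) (a := 2 * k + m + 7) (b := 5 * k + m + 5)
    (c := 5 * k + m + 5) (by omega) (by omega)
    (by intro j h1 h2; unfold DD; split_ifs <;> first | omega | (unfold DL; split_ifs <;> first | omega | exact not_false) | (unfold DY; split_ifs <;> first | omega | exact not_false) | (unfold DX; split_ifs <;> first | omega | exact not_false) | (unfold DR; split_ifs <;> first | omega | exact not_false)) h0
  have h2 := cnt_T (P := fun j => DD k m j (2 * k + m + 2)) (a := 2 * k + m + 5) (b := 2 * k + m + 7)
    (c := 5 * k + m + 5) (by omega) (by omega)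
    (by intro j h1 h2; unfold DD; split_ifs <;> first | omega | (unfold DL; split_ifs <;> first | omega | exact not_false) | (unfold DY; split_ifs <;> first | omega | exact not_false) | (unfold DX; split_ifs <;> first | omega | exact not_false) | (unfold DR; split_ifs <;> first | omega | exact not_false)) h1
  have h3 := cnt_F (P := fun j => DD k m j (2 * k + m + 2)) (a := 2 * k + m + 2) (b := 2 * k + m + 5)
    (c := 5 * k + m + 5) (by omega) (by omega)
    (by intro j h1 h2; unfold DD; split_ifs <;> first | omega | (unfold DL; split_ifs <;> first | omega | exact not_false) | (unfold DY; split_ifs <;> first | omega | exact not_false) | (unfold DX; split_ifs <;> first | omega | exact not_false) | (unfold DR; split_ifs <;> first | omega | exact not_false)) h2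
  have h4 := cnt_T (P := fun j => DD k m j (2 * k + m + 2)) (a := 2 * k + m + 1) (b := 2 * k + m + 2)
    (c := 5 * k + m + 5) (by omega) (by omega)
    (by intro j h1 h2; unfold DD; split_ifs <;> first | omega | (unfold DL; split_ifs <;> first | omega | exact not_false) | (unfold DY; split_ifs <;> first | omega | exact not_false) | (unfold DX; split_ifs <;> first | omega | exact not_false) | (unfold DR; split_ifs <;> first | omega | exact not_false)) h3
  have h5 := cnt_F (P := fun j => DD k m j (2 * k + m + 2)) (a := 2 * k + m - 2) (b := 2 * k + m + 1)
    (c := 5 * k + m + 5) (by omega) (by omega)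
    (by intro j h1 h2; unfold DD; split_ifs <;> first | omega | (unfold DL; split_ifs <;> first | omega | exact not_false) | (unfold DY; split_ifs <;> first | omega | exact not_false) | (unfold DX; split_ifs <;> first | omega | exact not_false) | (unfold DR; split_ifs <;> first | omega | exact not_false)) h4
  have h6 := cnt_T (P := fun j => DD k m j (2 * k + m + 2)) (a := k + m + 1) (b := 2 * k + m - 2)
    (c := 5 * k + m + 5) (by omega) (by omega)
    (by intro j h1 h2; unfold DD; split_ifs <;> first | omega | (unfold DL; split_ifs <;> first | omega | exact not_false) | (unfold DY; split_ifs <;> first | omega | exact not_false) | (unfold DX; split_ifs <;> first | omega | exact not_false) | (unfold DR; split_ifs <;> first | omega | exact not_false)) h5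
  have h7 := cnt_F (P := fun j => DD k m j (2 * k + m + 2)) (a := 0) (b := k + m + 1)
    (c := 5 * k + m + 5) (by omega) (by omega)
    (by intro j h1 h2; unfold DD; split_ifs <;> first | omega | (unfold DL; split_ifs <;> first | omega | exact not_false) | (unfold DY; split_ifs <;> first | omega | exact not_false) | (unfold DX; split_ifs <;> first | omega | exact not_false) | (unfold DR; split_ifs <;> first | omega | exact not_false)) h6
  omega

theorem in_Y2 {k m : ℕ} (hk : 9 ≤ k) :
    cnt (fun j => DD k m j (2 * k + m + 3)) 0 (5 * k + m + 5) = k := by
  have h0 := cnt_nil (fun j => DD k m j (2 * k + m + 3)) (5 * k + m + 5)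
  have h1 := cnt_F (P := fun j => DD k m j (2 * k + m + 3)) (a := 2 * k + m + 7) (b := 5 * k + m + 5)
    (c := 5 * k + m + 5) (by omega) (by omega)
    (by intro j h1 h2; unfold DD; split_ifs <;> first | omega | (unfold DL; split_ifs <;> first | omega | exact not_false) | (unfold DY; split_ifs <;> first | omega | exact not_false) | (unfold DX; split_ifs <;> first | omega | exact not_false) | (unfold DR; split_ifs <;> first | omega | exact not_false)) h0
  have h2 := cnt_T (P := fun j => DD k m j (2 * k + m + 3)) (a := 2 * k + m + 6) (b := 2 * k + m + 7)
    (c := 5 * k + m + 5) (by omega) (by omega)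
    (by intro j h1 h2; unfold DD; split_ifs <;> first | omega | (unfold DL; split_ifs <;> first | omega | exact not_false) | (unfold DY; split_ifs <;> first | omega | exact not_false) | (unfold DX; split_ifs <;> first | omega | exact not_false) | (unfold DR; split_ifs <;> first | omega | exact not_false)) h1
  have h3 := cnt_F (P := fun j => DD k m j (2 * k + m + 3)) (a := 2 * k + m + 3) (b := 2 * k + m + 6)
    (c := 5 * k + m + 5) (by omega) (by omega)
    (by intro j h1 h2; unfold DD; split_ifs <;> first | omega | (unfold DL; split_ifs <;> first | omega | exact not_false) | (unfold DY; split_ifs <;> first | omega | exact not_false) | (unfold DX; split_ifs <;> first | omega | exact not_false) | (unfold DR; split_ifs <;> first | omega | exact not_false)) h2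
  have h4 := cnt_T (P := fun j => DD k m j (2 * k + m + 3)) (a := 2 * k + m + 1) (b := 2 * k + m + 3)
    (c := 5 * k + m + 5) (by omega) (by omega)
    (by intro j h1 h2; unfold DD; split_ifs <;> first | omega | (unfold DL; split_ifs <;> first | omega | exact not_false) | (unfold DY; split_ifs <;> first | omega | exact not_false) | (unfold DX; split_ifs <;> first | omega | exact not_false) | (unfold DR; split_ifs <;> first | omega | exact not_false)) h3
  have h5 := cnt_F (P := fun j => DD k m j (2 * k + m + 3)) (a := 2 * k + m - 2) (b := 2 * k + m + 1)
    (c := 5 * k + m + 5) (by omega) (by omega)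
    (by intro j h1 h2; unfold DD; split_ifs <;> first | omega | (unfold DL; split_ifs <;> first | omega | exact not_false) | (unfold DY; split_ifs <;> first | omega | exact not_false) | (unfold DX; split_ifs <;> first | omega | exact not_false) | (unfold DR; split_ifs <;> first | omega | exact not_false)) h4
  have h6 := cnt_T (P := fun j => DD k m j (2 * k + m + 3)) (a := k + m + 1) (b := 2 * k + m - 2)
    (c := 5 * k + m + 5) (by omega) (by omega)
    (by intro j h1 h2; unfold DD; split_ifs <;> first | omega | (unfold DL; split_ifs <;> first | omega | exact not_false) | (unfold DY; split_ifs <;> first | omega | exact not_false) | (unfold DX; split_ifs <;> first | omega | exact not_false) | (unfold DR; split_ifs <;> first | omega | exact not_false)) h5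
  have h7 := cnt_F (P := fun j => DD k m j (2 * k + m + 3)) (a := 0) (b := k + m + 1)
    (c := 5 * k + m + 5) (by omega) (by omega)
    (by intro j h1 h2; unfold DD; split_ifs <;> first | omega | (unfold DL; split_ifs <;> first | omega | exact not_false) | (unfold DY; split_ifs <;> first | omega | exact not_false) | (unfold DX; split_ifs <;> first | omega | exact not_false) | (unfold DR; split_ifs <;> first | omega | exact not_false)) h6
  omega

theorem in_Y3 {k m : ℕ} (hk : 9 ≤ k) :
    cnt (fun j => DD k m j (2 * k + m + 4)) 0 (5 * k + m + 5) = k := by
  have h0 := cnt_nil (fun j => DD k m j (2 * k + m + 4)) (5 * k + m + 5)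
  have h1 := cnt_F (P := fun j => DD k m j (2 * k + m + 4)) (a := 2 * k + m + 7) (b := 5 * k + m + 5)
    (c := 5 * k + m + 5) (by omega) (by omega)
    (by intro j h1 h2; unfold DD; split_ifs <;> first | omega | (unfold DL; split_ifs <;> first | omega | exact not_false) | (unfold DY; split_ifs <;> first | omega | exact not_false) | (unfold DX; split_ifs <;> first | omega | exact not_false) | (unfold DR; split_ifs <;> first | omega | exact not_false)) h0
  have h2 := cnt_T (P := fun j => DD k m j (2 * k + m + 4)) (a := 2 * k + m + 6) (b := 2 * k + m + 7)
    (c := 5 * k + m + 5) (by omega) (by omega)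
    (by intro j h1 h2; unfold DD; split_ifs <;> first | omega | (unfold DL; split_ifs <;> first | omega | exact not_false) | (unfold DY; split_ifs <;> first | omega | exact not_false) | (unfold DX; split_ifs <;> first | omega | exact not_false) | (unfold DR; split_ifs <;> first | omega | exact not_false)) h1
  have h3 := cnt_F (P := fun j => DD k m j (2 * k + m + 4)) (a := 2 * k + m + 4) (b := 2 * k + m + 6)
    (c := 5 * k + m + 5) (by omega) (by omega)
    (by intro j h1 h2; unfold DD; split_ifs <;> first | omega | (unfold DL; split_ifs <;> first | omega | exact not_false) | (unfold DY; split_ifs <;> first | omega | exact not_false) | (unfold DX; split_ifs <;> first | omega | exact not_false) | (unfold DR; split_ifs <;> first | omega | exact not_false)) h2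
  have h4 := cnt_T (P := fun j => DD k m j (2 * k + m + 4)) (a := 2 * k + m + 2) (b := 2 * k + m + 4)
    (c := 5 * k + m + 5) (by omega) (by omega)
    (by intro j h1 h2; unfold DD; split_ifs <;> first | omega | (unfold DL; split_ifs <;> first | omega | exact not_false) | (unfold DY; split_ifs <;> first | omega | exact not_false) | (unfold DX; split_ifs <;> first | omega | exact not_false) | (unfold DR; split_ifs <;> first | omega | exact not_false)) h3
  have h5 := cnt_F (P := fun j => DD k m j (2 * k + m + 4)) (a := 2 * k + m + 1) (b := 2 * k + m + 2)
    (c := 5 * k + m + 5) (by omega) (by omega)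
    (by intro j h1 h2; unfold DD; split_ifs <;> first | omega | (unfold DL; split_ifs <;> first | omega | exact not_false) | (unfold DY; split_ifs <;> first | omega | exact not_false) | (unfold DX; split_ifs <;> first | omega | exact not_false) | (unfold DR; split_ifs <;> first | omega | exact not_false)) h4
  have h6 := cnt_T (P := fun j => DD k m j (2 * k + m + 4)) (a := k + m + 4) (b := 2 * k + m + 1)
    (c := 5 * k + m + 5) (by omega) (by omega)
    (by intro j h1 h2; unfold DD; split_ifs <;> first | omega | (unfold DL; split_ifs <;> first | omega | exact not_false) | (unfold DY; split_ifs <;> first | omega | exact not_false) | (unfold DX; split_ifs <;> first | omega | exact not_false) | (unfold DR; split_ifs <;> first | omega | exact not_false)) h5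
  have h7 := cnt_F (P := fun j => DD k m j (2 * k + m + 4)) (a := 0) (b := k + m + 4)
    (c := 5 * k + m + 5) (by omega) (by omega)
    (by intro j h1 h2; unfold DD; split_ifs <;> first | omega | (unfold DL; split_ifs <;> first | omega | exact not_false) | (unfold DY; split_ifs <;> first | omega | exact not_false) | (unfold DX; split_ifs <;> first | omega | exact not_false) | (unfold DR; split_ifs <;> first | omega | exact not_false)) h6
  omega

theorem in_Y4 {k m : ℕ} (hk : 9 ≤ k) :
    cnt (fun j => DD k m j (2 * k + m + 5)) 0 (5 * k + m + 5) = k := by
  have h0 := cnt_nil (fun j => DD k m j (2 * k + m + 5)) (5 * k + m + 5)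
  have h1 := cnt_F (P := fun j => DD k m j (2 * k + m + 5)) (a := 2 * k + m + 5) (b := 5 * k + m + 5)
    (c := 5 * k + m + 5) (by omega) (by omega)
    (by intro j h1 h2; unfold DD; split_ifs <;> first | omega | (unfold DL; split_ifs <;> first | omega | exact not_false) | (unfold DY; split_ifs <;> first | omega | exact not_false) | (unfold DX; split_ifs <;> first | omega | exact not_false) | (unfold DR; split_ifs <;> first | omega | exact not_false)) h0
  have h2 := cnt_T (P := fun j => DD k m j (2 * k + m + 5)) (a := 2 * k + m + 3) (b := 2 * k + m + 5)
    (c := 5 * k + m + 5) (by omega) (by omega)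
    (by intro j h1 h2; unfold DD; split_ifs <;> first | omega | (unfold DL; split_ifs <;> first | omega | exact not_false) | (unfold DY; split_ifs <;> first | omega | exact not_false) | (unfold DX; split_ifs <;> first | omega | exact not_false) | (unfold DR; split_ifs <;> first | omega | exact not_false)) h1
  have h3 := cnt_F (P := fun j => DD k m j (2 * k + m + 5)) (a := 2 * k + m - 1) (b := 2 * k + m + 3)
    (c := 5 * k + m + 5) (by omega) (by omega)
    (by intro j h1 h2; unfold DD; split_ifs <;> first | omega | (unfold DL; split_ifs <;> first | omega | exact not_false) | (unfold DY; split_ifs <;> first | omega | exact not_false) | (unfold DX; split_ifs <;> first | omega | exact not_false) | (unfold DR; split_ifs <;> first | omega | exact not_false)) h2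
  have h4 := cnt_T (P := fun j => DD k m j (2 * k + m + 5)) (a := k + m + 1) (b := 2 * k + m - 1)
    (c := 5 * k + m + 5) (by omega) (by omega)
    (by intro j h1 h2; unfold DD; split_ifs <;> first | omega | (unfold DL; split_ifs <;> first | omega | exact not_false) | (unfold DY; split_ifs <;> first | omega | exact not_false) | (unfold DX; split_ifs <;> first | omega | exact not_false) | (unfold DR; split_ifs <;> first | omega | exact not_false)) h3
  have h5 := cnt_F (P := fun j => DD k m j (2 * k + m + 5)) (a := 0) (b := k + m + 1)
    (c := 5 * k + m + 5) (by omega) (by omega)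
    (by intro j h1 h2; unfold DD; split_ifs <;> first | omega | (unfold DL; split_ifs <;> first | omega | exact not_false) | (unfold DY; split_ifs <;> first | omega | exact not_false) | (unfold DX; split_ifs <;> first | omega | exact not_false) | (unfold DR; split_ifs <;> first | omega | exact not_false)) h4
  omega

theorem in_u {k m : ℕ} (hk : 9 ≤ k) :
    cnt (fun j => DD k m j (2 * k + m + 6)) 0 (5 * k + m + 5) = k := by
  have h0 := cnt_nil (fun j => DD k m j (2 * k + m + 6)) (5 * k + m + 5)
  have h1 := cnt_T (P := fun j => DD k m j (2 * k + m + 6)) (a := 5 * k + m) (b := 5 * k + m + 5)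
    (c := 5 * k + m + 5) (by omega) (by omega)
    (by intro j h1 h2; unfold DD; split_ifs <;> first | omega | (unfold DL; split_ifs <;> first | omega | exact not_false) | (unfold DY; split_ifs <;> first | omega | exact not_false) | (unfold DX; split_ifs <;> first | omega | exact not_false) | (unfold DR; split_ifs <;> first | omega | exact not_false)) h0
  have h2 := cnt_F (P := fun j => DD k m j (2 * k + m + 6)) (a := 2 * k + m + 6) (b := 5 * k + m)
    (c := 5 * k + m + 5) (by omega) (by omega)
    (by intro j h1 h2; unfold DD; split_ifs <;> first | omega | (unfold DL; split_ifs <;> first | omega | exact not_false) | (unfold DY; split_ifs <;> first | omega | exact not_false) | (unfold DX; split_ifs <;> first | omega | exact not_false) | (unfold DR; split_ifs <;> first | omega | exact not_false)) h1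
  have h3 := cnt_T (P := fun j => DD k m j (2 * k + m + 6)) (a := 2 * k + m + 5) (b := 2 * k + m + 6)
    (c := 5 * k + m + 5) (by omega) (by omega)
    (by intro j h1 h2; unfold DD; split_ifs <;> first | omega | (unfold DL; split_ifs <;> first | omega | exact not_false) | (unfold DY; split_ifs <;> first | omega | exact not_false) | (unfold DX; split_ifs <;> first | omega | exact not_false) | (unfold DR; split_ifs <;> first | omega | exact not_false)) h2
  have h4 := cnt_F (P := fun j => DD k m j (2 * k + m + 6)) (a := 2 * k + m - 5) (b := 2 * k + m + 5)
    (c := 5 * k + m + 5) (by omega) (by omega)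
    (by intro j h1 h2; unfold DD; split_ifs <;> first | omega | (unfold DL; split_ifs <;> first | omega | exact not_false) | (unfold DY; split_ifs <;> first | omega | exact not_false) | (unfold DX; split_ifs <;> first | omega | exact not_false) | (unfold DR; split_ifs <;> first | omega | exact not_false)) h3
  have h5 := cnt_T (P := fun j => DD k m j (2 * k + m + 6)) (a := k + m + 1) (b := 2 * k + m - 5)
    (c := 5 * k + m + 5) (by omega) (by omega)
    (by intro j h1 h2; unfold DD; split_ifs <;> first | omega | (unfold DL; split_ifs <;> first | omega | exact not_false) | (unfold DY; split_ifs <;> first | omega | exact not_false) | (unfold DX; split_ifs <;> first | omega | exact not_false) | (unfold DR; split_ifs <;> first | omega | exact not_false)) h4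
  have h6 := cnt_F (P := fun j => DD k m j (2 * k + m + 6)) (a := 0) (b := k + m + 1)
    (c := 5 * k + m + 5) (by omega) (by omega)
    (by intro j h1 h2; unfold DD; split_ifs <;> first | omega | (unfold DL; split_ifs <;> first | omega | exact not_false) | (unfold DY; split_ifs <;> first | omega | exact not_false) | (unfold DX; split_ifs <;> first | omega | exact not_false) | (unfold DR; split_ifs <;> first | omega | exact not_false)) h5
  omega

theorem in_v {k m : ℕ} (hk : 9 ≤ k) :
    k ≤ cnt (fun j => DD k m j (2 * k + m + 7)) 0 (5 * k + m + 5) := by
  have h0 := Nat.zero_le (cnt (fun j => DD k m j (2 * k + m + 7)) (3 * k + m + 3) (5 * k + m + 5))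
  have h1 := cnt_ge (P := fun j => DD k m j (2 * k + m + 7)) (a := 2 * k + m + 6) (b := 2 * k + m + 8)
    (c := 3 * k + m + 3) (d := 5 * k + m + 5) (by omega) (by omega) (by omega)
    (by intro j h1 h2; unfold DD; split_ifs <;> first | omega | (unfold DL; split_ifs <;> first | omega | exact not_false) | (unfold DY; split_ifs <;> first | omega | exact not_false) | (unfold DX; split_ifs <;> first | omega | exact not_false) | (unfold DR; split_ifs <;> first | omega | exact not_false)) h0
  have h2 := cnt_ge (P := fun j => DD k m j (2 * k + m + 7)) (a := 0) (b := 2 * k + m + 1)
    (c := 2 * k + m + 6) (d := 5 * k + m + 5) (by omega) (by omega) (by omega)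
    (by intro j h1 h2; unfold DD; split_ifs <;> first | omega | (unfold DL; split_ifs <;> first | omega | exact not_false) | (unfold DY; split_ifs <;> first | omega | exact not_false) | (unfold DX; split_ifs <;> first | omega | exact not_false) | (unfold DR; split_ifs <;> first | omega | exact not_false)) h1
  omega

theorem in_X {k m i : ℕ} (hk : 9 ≤ k) (h : 2 * k + m + 8 ≤ i) (h' : i ≤ 3 * k + m - 2) :
    cnt (fun j => DD k m j (i)) 0 (5 * k + m + 5) = k := by
  have h0 := cnt_nil (fun j => DD k m j (i)) (5 * k + m + 5)
  have h1 := cnt_F (P := fun j => DD k m j (i)) (a := i + 2 * k - 2) (b := 5 * k + m + 5)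
    (c := 5 * k + m + 5) (by omega) (by omega)
    (by intro j h1 h2; unfold DD; split_ifs <;> first | omega | (unfold DL; split_ifs <;> first | omega | exact not_false) | (unfold DY; split_ifs <;> first | omega | exact not_false) | (unfold DX; split_ifs <;> first | omega | exact not_false) | (unfold DR; split_ifs <;> first | omega | exact not_false)) h0
  have h2 := cnt_T (P := fun j => DD k m j (i)) (a := i + 2 * k - 3) (b := i + 2 * k - 2)
    (c := 5 * k + m + 5) (by omega) (by omega)
    (by intro j h1 h2; unfold DD; split_ifs <;> first | omega | (unfold DL; split_ifs <;> first | omega | exact not_false) | (unfold DY; split_ifs <;> first | omega | exact not_false) | (unfold DX; split_ifs <;> first | omega | exact not_false) | (unfold DR; split_ifs <;> first | omega | exact not_false)) h1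
  have h3 := cnt_F (P := fun j => DD k m j (i)) (a := i) (b := i + 2 * k - 3)
    (c := 5 * k + m + 5) (by omega) (by omega)
    (by intro j h1 h2; unfold DD; split_ifs <;> first | omega | (unfold DL; split_ifs <;> first | omega | exact not_false) | (unfold DY; split_ifs <;> first | omega | exact not_false) | (unfold DX; split_ifs <;> first | omega | exact not_false) | (unfold DR; split_ifs <;> first | omega | exact not_false)) h2
  have h4 := cnt_T (P := fun j => DD k m j (i)) (a := 2 * k + m + 8) (b := i)
    (c := 5 * k + m + 5) (by omega) (by omega)
    (by intro j h1 h2; unfold DD; split_ifs <;> first | omega | (unfold DL; split_ifs <;> first | omega | exact not_false) | (unfold DY; split_ifs <;> first | omega | exact not_false) | (unfold DX; split_ifs <;> first | omega | exact not_false) | (unfold DR; split_ifs <;> first | omega | exact not_false)) h3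
  have h5 := cnt_F (P := fun j => DD k m j (i)) (a := 2 * k + m + 7) (b := 2 * k + m + 8)
    (c := 5 * k + m + 5) (by omega) (by omega)
    (by intro j h1 h2; unfold DD; split_ifs <;> first | omega | (unfold DL; split_ifs <;> first | omega | exact not_false) | (unfold DY; split_ifs <;> first | omega | exact not_false) | (unfold DX; split_ifs <;> first | omega | exact not_false) | (unfold DR; split_ifs <;> first | omega | exact not_false)) h4
  have h6 := cnt_T (P := fun j => DD k m j (i)) (a := 2 * k + m + 1) (b := 2 * k + m + 7)
    (c := 5 * k + m + 5) (by omega) (by omega)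
    (by intro j h1 h2; unfold DD; split_ifs <;> first | omega | (unfold DL; split_ifs <;> first | omega | exact not_false) | (unfold DY; split_ifs <;> first | omega | exact not_false) | (unfold DX; split_ifs <;> first | omega | exact not_false) | (unfold DR; split_ifs <;> first | omega | exact not_false)) h5
  have h7 := cnt_F (P := fun j => DD k m j (i)) (a := 4 * k + 2 * m + 2 - i) (b := 2 * k + m + 1)
    (c := 5 * k + m + 5) (by omega) (by omega)
    (by intro j h1 h2; unfold DD; split_ifs <;> first | omega | (unfold DL; split_ifs <;> first | omega | exact not_false) | (unfold DY; split_ifs <;> first | omega | exact not_false) | (unfold DX; split_ifs <;> first | omega | exact not_false) | (unfold DR; split_ifs <;> first | omega | exact not_false)) h6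
  have h8 := cnt_T (P := fun j => DD k m j (i)) (a := k + m + 1) (b := 4 * k + 2 * m + 2 - i)
    (c := 5 * k + m + 5) (by omega) (by omega)
    (by intro j h1 h2; unfold DD; split_ifs <;> first | omega | (unfold DL; split_ifs <;> first | omega | exact not_false) | (unfold DY; split_ifs <;> first | omega | exact not_false) | (unfold DX; split_ifs <;> first | omega | exact not_false) | (unfold DR; split_ifs <;> first | omega | exact not_false)) h7
  have h9 := cnt_F (P := fun j => DD k m j (i)) (a := 0) (b := k + m + 1)
    (c := 5 * k + m + 5) (by omega) (by omega)
    (by intro j h1 h2; unfold DD; split_ifs <;> first | omega | (unfold DL; split_ifs <;> first | omega | exact not_false) | (unfold DY; split_ifs <;> first | omega | exact not_false) | (unfold DX; split_ifs <;> first | omega | exact not_false) | (unfold DR; split_ifs <;> first | omega | exact not_false)) h8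
  omega

theorem in_X0 {k m : ℕ} (hk : 9 ≤ k) :
    cnt (fun j => DD k m j (3 * k + m - 1)) 0 (5 * k + m + 5) = k := by
  have h0 := cnt_nil (fun j => DD k m j (3 * k + m - 1)) (5 * k + m + 5)
  have h1 := cnt_F (P := fun j => DD k m j (3 * k + m - 1)) (a := 5 * k + m - 3) (b := 5 * k + m + 5)
    (c := 5 * k + m + 5) (by omega) (by omega)
    (by intro j h1 h2; unfold DD; split_ifs <;> first | omega | (unfold DL; split_ifs <;> first | omega | exact not_false) | (unfold DY; split_ifs <;> first | omega | exact not_false) | (unfold DX; split_ifs <;> first | omega | exact not_false) | (unfold DR; split_ifs <;> first | omega | exact not_false)) h0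
  have h2 := cnt_T (P := fun j => DD k m j (3 * k + m - 1)) (a := 5 * k + m - 4) (b := 5 * k + m - 3)
    (c := 5 * k + m + 5) (by omega) (by omega)
    (by intro j h1 h2; unfold DD; split_ifs <;> first | omega | (unfold DL; split_ifs <;> first | omega | exact not_false) | (unfold DY; split_ifs <;> first | omega | exact not_false) | (unfold DX; split_ifs <;> first | omega | exact not_false) | (unfold DR; split_ifs <;> first | omega | exact not_false)) h1
  have h3 := cnt_F (P := fun j => DD k m j (3 * k + m - 1)) (a := 3 * k + m + 4) (b := 5 * k + m - 4)
    (c := 5 * k + m + 5) (by omega) (by omega)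
    (by intro j h1 h2; unfold DD; split_ifs <;> first | omega | (unfold DL; split_ifs <;> first | omega | exact not_false) | (unfold DY; split_ifs <;> first | omega | exact not_false) | (unfold DX; split_ifs <;> first | omega | exact not_false) | (unfold DR; split_ifs <;> first | omega | exact not_false)) h2
  have h4 := cnt_T (P := fun j => DD k m j (3 * k + m - 1)) (a := 3 * k + m + 2) (b := 3 * k + m + 4)
    (c := 5 * k + m + 5) (by omega) (by omega)
    (by intro j h1 h2; unfold DD; split_ifs <;> first | omega | (unfold DL; split_ifs <;> first | omega | exact not_false) | (unfold DY; split_ifs <;> first | omega | exact not_false) | (unfold DX; split_ifs <;> first | omega | exact not_false) | (unfold DR; split_ifs <;> first | omega | exact not_false)) h3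
  have h5 := cnt_F (P := fun j => DD k m j (3 * k + m - 1)) (a := 3 * k + m - 1) (b := 3 * k + m + 2)
    (c := 5 * k + m + 5) (by omega) (by omega)
    (by intro j h1 h2; unfold DD; split_ifs <;> first | omega | (unfold DL; split_ifs <;> first | omega | exact not_false) | (unfold DY; split_ifs <;> first | omega | exact not_false) | (unfold DX; split_ifs <;> first | omega | exact not_false) | (unfold DR; split_ifs <;> first | omega | exact not_false)) h4
  have h6 := cnt_T (P := fun j => DD k m j (3 * k + m - 1)) (a := 2 * k + m + 8) (b := 3 * k + m - 1)
    (c := 5 * k + m + 5) (by omega) (by omega)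
    (by intro j h1 h2; unfold DD; split_ifs <;> first | omega | (unfold DL; split_ifs <;> first | omega | exact not_false) | (unfold DY; split_ifs <;> first | omega | exact not_false) | (unfold DX; split_ifs <;> first | omega | exact not_false) | (unfold DR; split_ifs <;> first | omega | exact not_false)) h5
  have h7 := cnt_F (P := fun j => DD k m j (3 * k + m - 1)) (a := 2 * k + m + 7) (b := 2 * k + m + 8)
    (c := 5 * k + m + 5) (by omega) (by omega)
    (by intro j h1 h2; unfold DD; split_ifs <;> first | omega | (unfold DL; split_ifs <;> first | omega | exact not_false) | (unfold DY; split_ifs <;> first | omega | exact not_false) | (unfold DX; split_ifs <;> first | omega | exact not_false) | (unfold DR; split_ifs <;> first | omega | exact not_false)) h6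
  have h8 := cnt_T (P := fun j => DD k m j (3 * k + m - 1)) (a := 2 * k + m + 1) (b := 2 * k + m + 7)
    (c := 5 * k + m + 5) (by omega) (by omega)
    (by intro j h1 h2; unfold DD; split_ifs <;> first | omega | (unfold DL; split_ifs <;> first | omega | exact not_false) | (unfold DY; split_ifs <;> first | omega | exact not_false) | (unfold DX; split_ifs <;> first | omega | exact not_false) | (unfold DR; split_ifs <;> first | omega | exact not_false)) h7
  have h9 := cnt_F (P := fun j => DD k m j (3 * k + m - 1)) (a := 0) (b := 2 * k + m + 1)
    (c := 5 * k + m + 5) (by omega) (by omega)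
    (by intro j h1 h2; unfold DD; split_ifs <;> first | omega | (unfold DL; split_ifs <;> first | omega | exact not_false) | (unfold DY; split_ifs <;> first | omega | exact not_false) | (unfold DX; split_ifs <;> first | omega | exact not_false) | (unfold DR; split_ifs <;> first | omega | exact not_false)) h8
  omega

theorem in_X1 {k m : ℕ} (hk : 9 ≤ k) :
    cnt (fun j => DD k m j (3 * k + m)) 0 (5 * k + m + 5) = k := by
  have h0 := cnt_nil (fun j => DD k m j (3 * k + m)) (5 * k + m + 5)
  have h1 := cnt_F (P := fun j => DD k m j (3 * k + m)) (a := 5 * k + m - 2) (b := 5 * k + m + 5)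
    (c := 5 * k + m + 5) (by omega) (by omega)
    (by intro j h1 h2; unfold DD; split_ifs <;> first | omega | (unfold DL; split_ifs <;> first | omega | exact not_false) | (unfold DY; split_ifs <;> first | omega | exact not_false) | (unfold DX; split_ifs <;> first | omega | exact not_false) | (unfold DR; split_ifs <;> first | omega | exact not_false)) h0
  have h2 := cnt_T (P := fun j => DD k m j (3 * k + m)) (a := 5 * k + m - 3) (b := 5 * k + m - 2)
    (c := 5 * k + m + 5) (by omega) (by omega)
    (by intro j h1 h2; unfold DD; split_ifs <;> first | omega | (unfold DL; split_ifs <;> first | omega | exact not_false) | (unfold DY; split_ifs <;> first | omega | exact not_false) | (unfold DX; split_ifs <;> first | omega | exact not_false) | (unfold DR; split_ifs <;> first | omega | exact not_false)) h1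
  have h3 := cnt_F (P := fun j => DD k m j (3 * k + m)) (a := 3 * k + m + 4) (b := 5 * k + m - 3)
    (c := 5 * k + m + 5) (by omega) (by omega)
    (by intro j h1 h2; unfold DD; split_ifs <;> first | omega | (unfold DL; split_ifs <;> first | omega | exact not_false) | (unfold DY; split_ifs <;> first | omega | exact not_false) | (unfold DX; split_ifs <;> first | omega | exact not_false) | (unfold DR; split_ifs <;> first | omega | exact not_false)) h2
  have h4 := cnt_T (P := fun j => DD k m j (3 * k + m)) (a := 3 * k + m + 3) (b := 3 * k + m + 4)
    (c := 5 * k + m + 5) (by omega) (by omega)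
    (by intro j h1 h2; unfold DD; split_ifs <;> first | omega | (unfold DL; split_ifs <;> first | omega | exact not_false) | (unfold DY; split_ifs <;> first | omega | exact not_false) | (unfold DX; split_ifs <;> first | omega | exact not_false) | (unfold DR; split_ifs <;> first | omega | exact not_false)) h3
  have h5 := cnt_F (P := fun j => DD k m j (3 * k + m)) (a := 3 * k + m) (b := 3 * k + m + 3)
    (c := 5 * k + m + 5) (by omega) (by omega)
    (by intro j h1 h2; unfold DD; split_ifs <;> first | omega | (unfold DL; split_ifs <;> first | omega | exact not_false) | (unfold DY; split_ifs <;> first | omega | exact not_false) | (unfold DX; split_ifs <;> first | omega | exact not_false) | (unfold DR; split_ifs <;> first | omega | exact not_false)) h4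
  have h6 := cnt_T (P := fun j => DD k m j (3 * k + m)) (a := 2 * k + m + 8) (b := 3 * k + m)
    (c := 5 * k + m + 5) (by omega) (by omega)
    (by intro j h1 h2; unfold DD; split_ifs <;> first | omega | (unfold DL; split_ifs <;> first | omega | exact not_false) | (unfold DY; split_ifs <;> first | omega | exact not_false) | (unfold DX; split_ifs <;> first | omega | exact not_false) | (unfold DR; split_ifs <;> first | omega | exact not_false)) h5
  have h7 := cnt_F (P := fun j => DD k m j (3 * k + m)) (a := 2 * k + m + 7) (b := 2 * k + m + 8)
    (c := 5 * k + m + 5) (by omega) (by omega)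
    (by intro j h1 h2; unfold DD; split_ifs <;> first | omega | (unfold DL; split_ifs <;> first | omega | exact not_false) | (unfold DY; split_ifs <;> first | omega | exact not_false) | (unfold DX; split_ifs <;> first | omega | exact not_false) | (unfold DR; split_ifs <;> first | omega | exact not_false)) h6
  have h8 := cnt_T (P := fun j => DD k m j (3 * k + m)) (a := 2 * k + m + 1) (b := 2 * k + m + 7)
    (c := 5 * k + m + 5) (by omega) (by omega)
    (by intro j h1 h2; unfold DD; split_ifs <;> first | omega | (unfold DL; split_ifs <;> first | omega | exact not_false) | (unfold DY; split_ifs <;> first | omega | exact not_false) | (unfold DX; split_ifs <;> first | omega | exact not_false) | (unfold DR; split_ifs <;> first | omega | exact not_false)) h7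
  have h9 := cnt_F (P := fun j => DD k m j (3 * k + m)) (a := 0) (b := 2 * k + m + 1)
    (c := 5 * k + m + 5) (by omega) (by omega)
    (by intro j h1 h2; unfold DD; split_ifs <;> first | omega | (unfold DL; split_ifs <;> first | omega | exact not_false) | (unfold DY; split_ifs <;> first | omega | exact not_false) | (unfold DX; split_ifs <;> first | omega | exact not_false) | (unfold DR; split_ifs <;> first | omega | exact not_false)) h8
  omega

theorem in_X2 {k m : ℕ} (hk : 9 ≤ k) :
    cnt (fun j => DD k m j (3 * k + m + 1)) 0 (5 * k + m + 5) = k := by
  have h0 := cnt_nil (fun j => DD k m j (3 * k + m + 1)) (5 * k + m + 5)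
  have h1 := cnt_F (P := fun j => DD k m j (3 * k + m + 1)) (a := 5 * k + m - 1) (b := 5 * k + m + 5)
    (c := 5 * k + m + 5) (by omega) (by omega)
    (by intro j h1 h2; unfold DD; split_ifs <;> first | omega | (unfold DL; split_ifs <;> first | omega | exact not_false) | (unfold DY; split_ifs <;> first | omega | exact not_false) | (unfold DX; split_ifs <;> first | omega | exact not_false) | (unfold DR; split_ifs <;> first | omega | exact not_false)) h0
  have h2 := cnt_T (P := fun j => DD k m j (3 * k + m + 1)) (a := 5 * k + m - 2) (b := 5 * k + m - 1)
    (c := 5 * k + m + 5) (by omega) (by omega)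
    (by intro j h1 h2; unfold DD; split_ifs <;> first | omega | (unfold DL; split_ifs <;> first | omega | exact not_false) | (unfold DY; split_ifs <;> first | omega | exact not_false) | (unfold DX; split_ifs <;> first | omega | exact not_false) | (unfold DR; split_ifs <;> first | omega | exact not_false)) h1
  have h3 := cnt_F (P := fun j => DD k m j (3 * k + m + 1)) (a := 3 * k + m + 1) (b := 5 * k + m - 2)
    (c := 5 * k + m + 5) (by omega) (by omega)
    (by intro j h1 h2; unfold DD; split_ifs <;> first | omega | (unfold DL; split_ifs <;> first | omega | exact not_false) | (unfold DY; split_ifs <;> first | omega | exact not_false) | (unfold DX; split_ifs <;> first | omega | exact not_false) | (unfold DR; split_ifs <;> first | omega | exact not_false)) h2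
  have h4 := cnt_T (P := fun j => DD k m j (3 * k + m + 1)) (a := 2 * k + m + 8) (b := 3 * k + m + 1)
    (c := 5 * k + m + 5) (by omega) (by omega)
    (by intro j h1 h2; unfold DD; split_ifs <;> first | omega | (unfold DL; split_ifs <;> first | omega | exact not_false) | (unfold DY; split_ifs <;> first | omega | exact not_false) | (unfold DX; split_ifs <;> first | omega | exact not_false) | (unfold DR; split_ifs <;> first | omega | exact not_false)) h3
  have h5 := cnt_F (P := fun j => DD k m j (3 * k + m + 1)) (a := 2 * k + m + 7) (b := 2 * k + m + 8)
    (c := 5 * k + m + 5) (by omega) (by omega)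
    (by intro j h1 h2; unfold DD; split_ifs <;> first | omega | (unfold DL; split_ifs <;> first | omega | exact not_false) | (unfold DY; split_ifs <;> first | omega | exact not_false) | (unfold DX; split_ifs <;> first | omega | exact not_false) | (unfold DR; split_ifs <;> first | omega | exact not_false)) h4
  have h6 := cnt_T (P := fun j => DD k m j (3 * k + m + 1)) (a := 2 * k + m + 1) (b := 2 * k + m + 7)
    (c := 5 * k + m + 5) (by omega) (by omega)
    (by intro j h1 h2; unfold DD; split_ifs <;> first | omega | (unfold DL; split_ifs <;> first | omega | exact not_false) | (unfold DY; split_ifs <;> first | omega | exact not_false) | (unfold DX; split_ifs <;> first | omega | exact not_false) | (unfold DR; split_ifs <;> first | omega | exact not_false)) h5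
  have h7 := cnt_F (P := fun j => DD k m j (3 * k + m + 1)) (a := 0) (b := 2 * k + m + 1)
    (c := 5 * k + m + 5) (by omega) (by omega)
    (by intro j h1 h2; unfold DD; split_ifs <;> first | omega | (unfold DL; split_ifs <;> first | omega | exact not_false) | (unfold DY; split_ifs <;> first | omega | exact not_false) | (unfold DX; split_ifs <;> first | omega | exact not_false) | (unfold DR; split_ifs <;> first | omega | exact not_false)) h6
  omega

theorem in_X3 {k m : ℕ} (hk : 9 ≤ k) :
    cnt (fun j => DD k m j (3 * k + m + 2)) 0 (5 * k + m + 5) = k := by
  have h0 := cnt_nil (fun j => DD k m j (3 * k + m + 2)) (5 * k + m + 5)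
  have h1 := cnt_F (P := fun j => DD k m j (3 * k + m + 2)) (a := 5 * k + m) (b := 5 * k + m + 5)
    (c := 5 * k + m + 5) (by omega) (by omega)
    (by intro j h1 h2; unfold DD; split_ifs <;> first | omega | (unfold DL; split_ifs <;> first | omega | exact not_false) | (unfold DY; split_ifs <;> first | omega | exact not_false) | (unfold DX; split_ifs <;> first | omega | exact not_false) | (unfold DR; split_ifs <;> first | omega | exact not_false)) h0
  have h2 := cnt_T (P := fun j => DD k m j (3 * k + m + 2)) (a := 5 * k + m - 1) (b := 5 * k + m)
    (c := 5 * k + m + 5) (by omega) (by omega)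
    (by intro j h1 h2; unfold DD; split_ifs <;> first | omega | (unfold DL; split_ifs <;> first | omega | exact not_false) | (unfold DY; split_ifs <;> first | omega | exact not_false) | (unfold DX; split_ifs <;> first | omega | exact not_false) | (unfold DR; split_ifs <;> first | omega | exact not_false)) h1
  have h3 := cnt_F (P := fun j => DD k m j (3 * k + m + 2)) (a := 3 * k + m + 2) (b := 5 * k + m - 1)
    (c := 5 * k + m + 5) (by omega) (by omega)
    (by intro j h1 h2; unfold DD; split_ifs <;> first | omega | (unfold DL; split_ifs <;> first | omega | exact not_false) | (unfold DY; split_ifs <;> first | omega | exact not_false) | (unfold DX; split_ifs <;> first | omega | exact not_false) | (unfold DR; split_ifs <;> first | omega | exact not_false)) h2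
  have h4 := cnt_T (P := fun j => DD k m j (3 * k + m + 2)) (a := 3 * k + m) (b := 3 * k + m + 2)
    (c := 5 * k + m + 5) (by omega) (by omega)
    (by intro j h1 h2; unfold DD; split_ifs <;> first | omega | (unfold DL; split_ifs <;> first | omega | exact not_false) | (unfold DY; split_ifs <;> first | omega | exact not_false) | (unfold DX; split_ifs <;> first | omega | exact not_false) | (unfold DR; split_ifs <;> first | omega | exact not_false)) h3
  have h5 := cnt_F (P := fun j => DD k m j (3 * k + m + 2)) (a := 3 * k + m - 1) (b := 3 * k + m)
    (c := 5 * k + m + 5) (by omega) (by omega)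
    (by intro j h1 h2; unfold DD; split_ifs <;> first | omega | (unfold DL; split_ifs <;> first | omega | exact not_false) | (unfold DY; split_ifs <;> first | omega | exact not_false) | (unfold DX; split_ifs <;> first | omega | exact not_false) | (unfold DR; split_ifs <;> first | omega | exact not_false)) h4
  have h6 := cnt_T (P := fun j => DD k m j (3 * k + m + 2)) (a := 2 * k + m + 8) (b := 3 * k + m - 1)
    (c := 5 * k + m + 5) (by omega) (by omega)
    (by intro j h1 h2; unfold DD; split_ifs <;> first | omega | (unfold DL; split_ifs <;> first | omega | exact not_false) | (unfold DY; split_ifs <;> first | omega | exact not_false) | (unfold DX; split_ifs <;> first | omega | exact not_false) | (unfold DR; split_ifs <;> first | omega | exact not_false)) h5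
  have h7 := cnt_F (P := fun j => DD k m j (3 * k + m + 2)) (a := 2 * k + m + 7) (b := 2 * k + m + 8)
    (c := 5 * k + m + 5) (by omega) (by omega)
    (by intro j h1 h2; unfold DD; split_ifs <;> first | omega | (unfold DL; split_ifs <;> first | omega | exact not_false) | (unfold DY; split_ifs <;> first | omega | exact not_false) | (unfold DX; split_ifs <;> first | omega | exact not_false) | (unfold DR; split_ifs <;> first | omega | exact not_false)) h6
  have h8 := cnt_T (P := fun j => DD k m j (3 * k + m + 2)) (a := 2 * k + m + 1) (b := 2 * k + m + 7)
    (c := 5 * k + m + 5) (by omega) (by omega)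
    (by intro j h1 h2; unfold DD; split_ifs <;> first | omega | (unfold DL; split_ifs <;> first | omega | exact not_false) | (unfold DY; split_ifs <;> first | omega | exact not_false) | (unfold DX; split_ifs <;> first | omega | exact not_false) | (unfold DR; split_ifs <;> first | omega | exact not_false)) h7
  have h9 := cnt_F (P := fun j => DD k m j (3 * k + m + 2)) (a := 0) (b := 2 * k + m + 1)
    (c := 5 * k + m + 5) (by omega) (by omega)
    (by intro j h1 h2; unfold DD; split_ifs <;> first | omega | (unfold DL; split_ifs <;> first | omega | exact not_false) | (unfold DY; split_ifs <;> first | omega | exact not_false) | (unfold DX; split_ifs <;> first | omega | exact not_false) | (unfold DR; split_ifs <;> first | omega | exact not_false)) h8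
  omega

theorem in_X4 {k m : ℕ} (hk : 9 ≤ k) :
    cnt (fun j => DD k m j (3 * k + m + 3)) 0 (5 * k + m + 5) = k := by
  have h0 := cnt_nil (fun j => DD k m j (3 * k + m + 3)) (5 * k + m + 5)
  have h1 := cnt_F (P := fun j => DD k m j (3 * k + m + 3)) (a := 3 * k + m + 3) (b := 5 * k + m + 5)
    (c := 5 * k + m + 5) (by omega) (by omega)
    (by intro j h1 h2; unfold DD; split_ifs <;> first | omega | (unfold DL; split_ifs <;> first | omega | exact not_false) | (unfold DY; split_ifs <;> first | omega | exact not_false) | (unfold DX; split_ifs <;> first | omega | exact not_false) | (unfold DR; split_ifs <;> first | omega | exact not_false)) h0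
  have h2 := cnt_T (P := fun j => DD k m j (3 * k + m + 3)) (a := 3 * k + m + 1) (b := 3 * k + m + 3)
    (c := 5 * k + m + 5) (by omega) (by omega)
    (by intro j h1 h2; unfold DD; split_ifs <;> first | omega | (unfold DL; split_ifs <;> first | omega | exact not_false) | (unfold DY; split_ifs <;> first | omega | exact not_false) | (unfold DX; split_ifs <;> first | omega | exact not_false) | (unfold DR; split_ifs <;> first | omega | exact not_false)) h1
  have h3 := cnt_F (P := fun j => DD k m j (3 * k + m + 3)) (a := 3 * k + m - 1) (b := 3 * k + m + 1)
    (c := 5 * k + m + 5) (by omega) (by omega)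
    (by intro j h1 h2; unfold DD; split_ifs <;> first | omega | (unfold DL; split_ifs <;> first | omega | exact not_false) | (unfold DY; split_ifs <;> first | omega | exact not_false) | (unfold DX; split_ifs <;> first | omega | exact not_false) | (unfold DR; split_ifs <;> first | omega | exact not_false)) h2
  have h4 := cnt_T (P := fun j => DD k m j (3 * k + m + 3)) (a := 2 * k + m + 1) (b := 3 * k + m - 1)
    (c := 5 * k + m + 5) (by omega) (by omega)
    (by intro j h1 h2; unfold DD; split_ifs <;> first | omega | (unfold DL; split_ifs <;> first | omega | exact not_false) | (unfold DY; split_ifs <;> first | omega | exact not_false) | (unfold DX; split_ifs <;> first | omega | exact not_false) | (unfold DR; split_ifs <;> first | omega | exact not_false)) h3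
  have h5 := cnt_F (P := fun j => DD k m j (3 * k + m + 3)) (a := 0) (b := 2 * k + m + 1)
    (c := 5 * k + m + 5) (by omega) (by omega)
    (by intro j h1 h2; unfold DD; split_ifs <;> first | omega | (unfold DL; split_ifs <;> first | omega | exact not_false) | (unfold DY; split_ifs <;> first | omega | exact not_false) | (unfold DX; split_ifs <;> first | omega | exact not_false) | (unfold DR; split_ifs <;> first | omega | exact not_false)) h4
  omega

theorem in_R1 {k m i : ℕ} (hk : 9 ≤ k) (h : 3 * k + m + 4 ≤ i) (h' : i < 3 * k + m + 7) :
    k ≤ cnt (fun j => DD k m j (i)) 0 (5 * k + m + 5) := by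
  have h0 := Nat.zero_le (cnt (fun j => DD k m j (i)) (5 * k + m + 5) (5 * k + m + 5))
  have h1 := cnt_ge (P := fun j => DD k m j (i)) (a := i) (b := i + k + 2)
    (c := 5 * k + m + 5) (d := 5 * k + m + 5) (by omega) (by omega) (by omega)
    (by intro j h1 h2; unfold DD; split_ifs <;> first | omega | (unfold DL; split_ifs <;> first | omega | exact not_false) | (unfold DY; split_ifs <;> first | omega | exact not_false) | (unfold DX; split_ifs <;> first | omega | exact not_false) | (unfold DR; split_ifs <;> first | omega | exact not_false)) h0
  have h2 := cnt_ge (P := fun j => DD k m j (i)) (a := 0) (b := 3 * k + m + 3)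
    (c := i) (d := 5 * k + m + 5) (by omega) (by omega) (by omega)
    (by intro j h1 h2; unfold DD; split_ifs <;> first | omega | (unfold DL; split_ifs <;> first | omega | exact not_false) | (unfold DY; split_ifs <;> first | omega | exact not_false) | (unfold DX; split_ifs <;> first | omega | exact not_false) | (unfold DR; split_ifs <;> first | omega | exact not_false)) h1
  omega

theorem in_R2 {k m i : ℕ} (hk : 9 ≤ k) (h : 3 * k + m + 7 ≤ i) (h' : i < 4 * k + m + 4) :
    k ≤ cnt (fun j => DD k m j (i)) 0 (5 * k + m + 5) := by
  have h0 := Nat.zero_le (cnt (fun j => DD k m j (i)) (5 * k + m + 5) (5 * k + m + 5))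
  have h1 := cnt_ge (P := fun j => DD k m j (i)) (a := i) (b := i + k + 2)
    (c := 5 * k + m + 5) (d := 5 * k + m + 5) (by omega) (by omega) (by omega)
    (by intro j h1 h2; unfold DD; split_ifs <;> first | omega | (unfold DL; split_ifs <;> first | omega | exact not_false) | (unfold DY; split_ifs <;> first | omega | exact not_false) | (unfold DX; split_ifs <;> first | omega | exact not_false) | (unfold DR; split_ifs <;> first | omega | exact not_false)) h0
  have h2 := cnt_ge (P := fun j => DD k m j (i)) (a := 3 * k + m + 3) (b := 3 * k + m + 4)
    (c := i) (d := 5 * k + m + 5) (by omega) (by omega) (by omega)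
    (by intro j h1 h2; unfold DD; split_ifs <;> first | omega | (unfold DL; split_ifs <;> first | omega | exact not_false) | (unfold DY; split_ifs <;> first | omega | exact not_false) | (unfold DX; split_ifs <;> first | omega | exact not_false) | (unfold DR; split_ifs <;> first | omega | exact not_false)) h1
  have h3 := cnt_ge (P := fun j => DD k m j (i)) (a := 0) (b := 3 * k + m + 2)
    (c := 3 * k + m + 3) (d := 5 * k + m + 5) (by omega) (by omega) (by omega)
    (by intro j h1 h2; unfold DD; split_ifs <;> first | omega | (unfold DL; split_ifs <;> first | omega | exact not_false) | (unfold DY; split_ifs <;> first | omega | exact not_false) | (unfold DX; split_ifs <;> first | omega | exact not_false) | (unfold DR; split_ifs <;> first | omega | exact not_false)) h2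
  omega

theorem in_R3 {k m i : ℕ} (hk : 9 ≤ k) (h : 4 * k + m + 4 ≤ i) (h' : i < 5 * k + m + 5) :
    k ≤ cnt (fun j => DD k m j (i)) 0 (5 * k + m + 5) := by
  have h0 := Nat.zero_le (cnt (fun j => DD k m j (i)) (i) (5 * k + m + 5))
  have h1 := cnt_ge (P := fun j => DD k m j (i)) (a := 0) (b := i - k)
    (c := i) (d := 5 * k + m + 5) (by omega) (by omega) (by omega)
    (by intro j h1 h2; unfold DD; split_ifs <;> first | omega | (unfold DL; split_ifs <;> first | omega | exact not_false) | (unfold DY; split_ifs <;> first | omega | exact not_false) | (unfold DX; split_ifs <;> first | omega | exact not_false) | (unfold DR; split_ifs <;> first | omega | exact not_false)) h0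
  omega

end Pool.Agent.BKG
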