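import Pool.Agent.BKG.Defs
import Pool.Agent.BKF.Cut

/-!
# The tournament on `5 k + m + 5` vertices is `k`-arc-strong
-/

set_option autoImplicit false

namespace Pool.Agent.BKG

open Pool.Agent.BetaK Pool.Agent.BKF

theorem card_iv {n a b : ℕ} (hb : b ≤ n) {P : Fin n → Prop} [DecidablePred P]
    (hP : ∀ i : Fin n, P i ↔ a ≤ (i : ℕ) ∧ (i : ℕ) < b) :
    ((Finset.univ : Finset (Fin n)).filter P).card = b - a := by
  rw [← Nat.card_Ico]
  refine Finset.card_bij (fun i _ => (i : ℕ)) ?_ ?_ ?_
  · intro i hi
    rw [Finset.mem_filter, hP] at hi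
    exact Finset.mem_Ico.2 hi.2
  · intro i _ j _ hij
    exact Fin.ext hij
  · intro j hj
    rw [Finset.mem_Ico] at hj
    exact ⟨⟨j, by omega⟩, Finset.mem_filter.2 ⟨Finset.mem_univ _, (hP _).2 hj⟩, rfl⟩

theorem le_filter {V : Type*} [DecidableEq V] {m : ℕ} {T : Finset (V × V)} {P : V × V → Prop}
    [DecidablePred P] (f : Fin m → V × V) (hf : Function.Injective f)
    (hT : ∀ t, f t ∈ T ∧ P (f t)) : m ≤ (T.filter P).card := by
  have h := Finset.card_le_card_of_injOn (s := (Finset.univ : Finset (Fin m))) (t := T.filter P) f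
    (fun t _ => Finset.mem_coe.2 (Finset.mem_filter.2 (hT t))) (hf.injOn)
  rwa [Finset.card_univ, Fintype.card_fin] at h

/-- the rotational tournament at `o` -/
theorem rot_out {k o n : ℕ} (T : Finset (Fin n × Fin n)) (L : Finset (Fin n))
    (hn : o + 2 * k + 1 ≤ n) (hL : ∀ i : Fin n, i ∈ L ↔ o ≤ (i : ℕ) ∧ (i : ℕ) < o + 2 * k + 1)
    (hT : ∀ i j : Fin n, i ∈ L → j ∈ L → (((i : ℕ) < j ∧ (j : ℕ) ≤ i + k) ∨ (j : ℕ) + k + 1 ≤ i) →
      (i, j) ∈ T) :
    ∀ v ∈ L, k ≤ (T.filter fun a => a.1 = v ∧ a.2 ∈ L).card := by
  intro v hv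
  have hv' := (hL v).1 hv
  have key : ∀ t : Fin k, (if (v : ℕ) + 1 + t < o + 2 * k + 1 then (v : ℕ) + 1 + t
      else (v : ℕ) + t - 2 * k) < n := by
    intro t
    have := t.isLt
    split_ifs <;> omega
  have hmem : ∀ t : Fin k, (⟨_, key t⟩ : Fin n) ∈ L := by
    intro t
    rw [hL]
    have := t.isLt
    simp only
    split_ifs <;> omega
  refine le_filter (fun t : Fin k => (v, (⟨_, key t⟩ : Fin n))) ?_ ?_
  · intro s t hst
    have h1 := congrArg Fin.val (congrArg Prod.snd hst)
    simp only at h1
    have := t.isLt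
    have := s.isLt
    refine Fin.ext ?_
    split_ifs at h1 <;> omega
  · intro t
    refine ⟨hT v _ hv (hmem t) ?_, rfl, hmem t⟩
    have := t.isLt
    simp only
    split_ifs <;> omega

/-- the block `M0 = {0 .. k} ∪ {k+m+1 .. 2k+m}` of `L` -/
theorem block_out {k m n : ℕ} (T : Finset (Fin n × Fin n)) (L : Finset (Fin n))
    (hn : 2 * k + m + 1 ≤ n)
    (hL : ∀ i : Fin n, i ∈ L ↔ (i : ℕ) ≤ k ∨ (k + m + 1 ≤ (i : ℕ) ∧ (i : ℕ) ≤ 2 * k + m))
    (hT : ∀ i j : Fin n, i ∈ L → j ∈ L →
      (((i : ℕ) < j ∧ (j : ℕ) ≤ i + k + m) ∨ (j : ℕ) + k + m + 1 ≤ i) → (i, j) ∈ T) :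
    ∀ v ∈ L, k ≤ (T.filter fun a => a.1 = v ∧ a.2 ∈ L).card := by
  intro v hv
  have hv' := (hL v).1 hv
  have key : ∀ t : Fin k, (if (v : ℕ) ≤ k then
      (if (v : ℕ) + 1 + t ≤ k then (v : ℕ) + 1 + t else m + 1 + v + t)
      else (if (v : ℕ) + 1 + t ≤ 2 * k + m then (v : ℕ) + 1 + t
        else (v : ℕ) + t - (2 * k + m))) < n := by
    intro t
    have := t.isLt
    split_ifs <;> omega
  have hmem : ∀ t : Fin k, (⟨_, key t⟩ : Fin n) ∈ L := by
    intro t
    rw [hL]
    have := t.isLt
    simp only
    split_ifs <;> omega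
  refine le_filter (fun t : Fin k => (v, (⟨_, key t⟩ : Fin n))) ?_ ?_
  · intro s t hst
    have h1 := congrArg Fin.val (congrArg Prod.snd hst)
    simp only at h1
    have := t.isLt
    have := s.isLt
    refine Fin.ext ?_
    split_ifs at h1 <;> omega
  · intro t
    refine ⟨hT v _ hv (hmem t) ?_, rfl, hmem t⟩
    have := t.isLt
    simp only
    split_ifs <;> omega

theorem strong {k m : ℕ} (hk : 9 ≤ k) : ArcStrong k (tT k m) := by
  classical
  set L : Finset (Fin (5 * k + m + 5)) := Finset.univ.filter fun i =>
    (i : ℕ) ≤ k ∨ (k + m + 1 ≤ (i : ℕ) ∧ (i : ℕ) ≤ 2 * k + m) with hLd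
  set R : Finset (Fin (5 * k + m + 5)) := Finset.univ.filter fun i => 3 * k + m + 4 ≤ (i : ℕ) with hRd
  set S1 : Finset (Fin (5 * k + m + 5)) := Finset.univ.filter fun i =>
    2 * k + m + 1 ≤ (i : ℕ) ∧ (i : ℕ) ≤ 2 * k + m + 4 with hS1d
  set S2 : Finset (Fin (5 * k + m + 5)) := Finset.univ.filter fun i =>
    2 * k + m + 8 ≤ (i : ℕ) ∧ (i : ℕ) ≤ 3 * k + m + 2 with hS2d
  have mL : ∀ i : Fin (5 * k + m + 5), i ∈ L ↔
      (i : ℕ) ≤ k ∨ (k + m + 1 ≤ (i : ℕ) ∧ (i : ℕ) ≤ 2 * k + m) := fun i => by simp [hLd]
  have mR : ∀ i : Fin (5 * k + m + 5), i ∈ R ↔ 3 * k + m + 4 ≤ (i : ℕ) := fun i => by simp [hRd]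
  have mS1 : ∀ i : Fin (5 * k + m + 5), i ∈ S1 ↔ 2 * k + m + 1 ≤ (i : ℕ) ∧ (i : ℕ) ≤ 2 * k + m + 4 :=
    fun i => by simp [hS1d]
  have mS2 : ∀ i : Fin (5 * k + m + 5), i ∈ S2 ↔ 2 * k + m + 8 ≤ (i : ℕ) ∧ (i : ℕ) ≤ 3 * k + m + 2 :=
    fun i => by simp [hS2d]
  have cL : L.card = 2 * k + 1 := by
    rw [hLd, Finset.filter_or, Finset.card_union_of_disjoint, card_iv (a := 0) (b := k + 1)
      (by omega), card_iv (a := k + m + 1) (b := 2 * k + m + 1) (by omega)]
    · omega
    · intro i; omega
    · intro i; omega
    · rw [Finset.disjoint_filter]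
      intro i _ h1 h2
      omega
  have cR : R.card = 2 * k + 1 := by
    rw [hRd, card_iv (a := 3 * k + m + 4) (b := 5 * k + m + 5) (by omega)]
    · omega
    · intro i
      have := i.isLt
      omega
  have cS1 : S1.card = 4 := by
    rw [hS1d, card_iv (a := 2 * k + m + 1) (b := 2 * k + m + 5) (by omega)]
    · omega
    · intro i; omega
  have cS2 : S2.card = k - 5 := by
    rw [hS2d, card_iv (a := 2 * k + m + 8) (b := 3 * k + m + 3) (by omega)]
    · omega
    · intro i; omega
  have ht := tournament (m := m) hk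
  have hasym : ∀ a b, (a, b) ∈ tT k m → (b, a) ∉ tT k m := by
    intro a b hab
    have hne : a ≠ b := by
      rintro rfl
      exact ht.1 a hab
    exact (ht.2 a b hne).1 hab
  -- `p = v`, `q = u`
  set p : Fin (5 * k + m + 5) := ⟨2 * k + m + 7, by omega⟩ with hp
  set q : Fin (5 * k + m + 5) := ⟨2 * k + m + 6, by omega⟩ with hq
  refine arcStrong_ends (by omega) (L := L) (R := R) ht.1 hasym cL ?_ cR ?_ ?_ ?_ ?_ ?_
  · refine block_out (m := m) (tT k m) L (by omega) mL ?_
    · intro i j hi hj hij
      rw [mL] at hi hj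
      rw [mem_tT]
      unfold TT
      rw [if_pos (by simp only; omega)]
      unfold TL
      rw [if_pos (by simp only; omega)]
      exact hij
  · refine rot_out (o := 3 * k + m + 4) (tT k m) R (by omega) ?_ ?_
    · intro i
      have := i.isLt
      rw [mR]; omega
    · intro i j hi hj hij
      rw [mR] at hi hj
      rw [mem_tT]
      unfold TT
      rw [if_neg (by simp only; omega), if_neg (by simp only; omega), if_neg (by simp only; omega),
        if_neg (by simp only; omega), if_neg (by simp only; omega)]
      unfold TR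
      rw [if_neg (by simp only; omega), if_neg (by simp only; omega), if_neg (by simp only; omega),
        if_neg (by simp only; omega)]
      exact hij
  · intro a ha b hb
    rw [mL] at ha
    rw [mR] at hb
    rw [mem_tT]
    unfold TT
    rw [if_pos (by simp only; omega)]
    unfold TL
    rw [if_neg (by simp only; omega), if_neg (by simp only; omega), if_neg (by simp only; omega)]
    trivial
  · intro w hwL hwR
    rw [mL] at hwL
    rw [mR] at hwR
    have key : ∀ t : Fin k, (if (w : ℕ) ≤ 2 * k + m then (t : ℕ) else k + m + 1 + t) <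
        5 * k + m + 5 := fun t => by
      have := t.isLt
      split_ifs <;> omega
    refine le_filter (fun t : Fin k => ((⟨_, key t⟩ : Fin (5 * k + m + 5)), w)) ?_ ?_
    · intro s t hst
      have h1 := congrArg Fin.val (congrArg Prod.fst hst)
      simp only at h1
      refine Fin.ext ?_
      split_ifs at h1 <;> omega
    · intro t
      have := t.isLt
      refine ⟨?_, ?_, rfl⟩
      · rw [mem_tT]
        simp only
        by_cases hw : (w : ℕ) ≤ 2 * k + m
        · rw [if_pos hw]
          unfold TT
          rw [if_pos (by omega)]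
          unfold TL
          rw [if_pos hw]
          omega
        · rw [if_neg hw]
          unfold TT
          rw [if_pos (by omega)]
          unfold TL
          rw [if_neg (by omega)]
          split_ifs <;> first | trivial | omega
      · rw [mL]
        simp only
        split_ifs <;> omega
  · intro w hwL hwR
    rw [mL] at hwL
    rw [mR] at hwR
    have key : ∀ t : Fin k, 3 * k + m + 4 + (t : ℕ) < 5 * k + m + 5 := fun t => by
      have := t.isLt
      omega
    refine le_filter (fun t : Fin k => (w, (⟨_, key t⟩ : Fin (5 * k + m + 5)))) ?_ ?_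
    · intro s t hst
      have h1 := congrArg Fin.val (congrArg Prod.snd hst)
      simp only at h1
      exact Fin.ext (by omega)
    · intro t
      have := t.isLt
      refine ⟨?_, rfl, ?_⟩
      · rw [mem_tT]
        simp only
        unfold TT
        split_ifs
        · unfold TL
          rw [if_neg (by omega), if_neg (by omega), if_neg (by omega)]
          trivial
        · unfold TY
          rw [if_neg (by omega), if_neg (by omega), if_neg (by omega)]
          trivial
        · omega
        · omega
        · unfold TX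
          rw [if_neg (by omega), if_neg (by omega), if_neg (by omega)]
          omega
        · omega
      · rw [mR]
        simp only
        omega
  · intro Z hRZ hLZ
    refine back_cut (L := L) (R := R) (S1 := S1) (S2 := S2) (p := p) (q := q) ?_ ?_ ?_ ?_ ?_ ?_ ?_
      ?_ ?_ ?_ ?_ ?_ ?_ ?_ ?_ ?_ hRZ hLZ
    · intro h
      have := congrArg Fin.val h
      simp only [hp, hq] at this
      omega
    · rw [mem_tT]
      simp only [hp, hq]
      unfold TT
      rw [if_neg (by omega), if_neg (by omega), if_pos rfl]
      omega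
    · rw [mS1]; simp only [hp]; omega
    · rw [mS2]; simp only [hp]; omega
    · rw [mS1]; simp only [hq]; omega
    · rw [mS2]; simp only [hq]; omega
    · rw [mL]; simp only [hq]; omega
    · rw [Finset.disjoint_left]
      intro i hi hi'
      rw [mS1] at hi
      rw [mS2] at hi'
      omega
    · rw [Finset.disjoint_left]
      intro i hi hi'
      rw [mS2] at hi
      rw [mL] at hi'
      omega
    · intro x hx
      rw [mS2] at hx
      refine ⟨⟨(x : ℕ) + 2 * k - 3, by omega⟩, ?_, ?_⟩
      · rw [mR]
        simp only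
        omega
      · rw [mem_tT]
        simp only
        unfold TT
        rw [if_neg (by omega), if_neg (by omega), if_neg (by omega), if_neg (by omega),
          if_neg (by omega)]
        unfold TR
        rw [if_neg (by omega), if_neg (by omega), if_neg (by omega), if_pos (by omega)]
        omega
    · intro x hx
      rw [mS2] at hx
      rw [mem_tT]
      simp only [hp]
      unfold TT
      rw [if_neg (by omega), if_neg (by omega), if_neg (by omega), if_neg (by omega),
        if_pos (by omega)]
      unfold TX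
      rw [if_neg (by omega), if_pos rfl]
      omega
    · intro x hx
      rw [mS1] at hx
      rw [mem_tT]
      simp only [hq]
      unfold TT
      rw [if_neg (by omega), if_neg (by omega), if_pos rfl]
      omega
    · intro x hx
      rw [mS1] at hx
      refine ⟨⟨(x : ℕ) - (2 * k + m + 1), by omega⟩, ?_, ?_⟩
      · rw [mL]
        simp only
        omega
      · rw [mem_tT]
        simp only
        unfold TT
        rw [if_neg (by omega), if_pos (by omega)]
        unfold TY
        rw [if_pos (by omega)]
        omega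
    · rw [cS2]
      have key : ∀ t : Fin (k - 5 + 1), 4 + (t : ℕ) < 5 * k + m + 5 := fun t => by
        have := t.isLt
        omega
      refine le_filter (fun t : Fin (k - 5 + 1) => (p, (⟨_, key t⟩ : Fin (5 * k + m + 5)))) ?_ ?_
      · intro s t hst
        have h1 := congrArg Fin.val (congrArg Prod.snd hst)
        simp only at h1
        exact Fin.ext (by omega)
      · intro t
        have := t.isLt
        refine ⟨?_, rfl, ?_⟩
        · rw [mem_tT]
          simp only [hp]
          unfold TT
          rw [if_neg (by omega), if_neg (by omega), if_neg (by omega), if_pos rfl]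
          omega
        · rw [mL]
          simp only
          omega
    · rw [cS1]
      have key : ∀ t : Fin (4 + 1), 5 * k + m + (t : ℕ) < 5 * k + m + 5 := fun t => by
        have := t.isLt
        omega
      refine le_filter (fun t : Fin (4 + 1) => ((⟨_, key t⟩ : Fin (5 * k + m + 5)), q)) ?_ ?_
      · intro s t hst
        have h1 := congrArg Fin.val (congrArg Prod.fst hst)
        simp only at h1
        exact Fin.ext (by omega)
      · intro t
        have := t.isLt
        refine ⟨?_, ?_, rfl⟩
        · rw [mem_tT]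
          simp only [hq]
          unfold TT
          rw [if_neg (by omega), if_neg (by omega), if_neg (by omega), if_neg (by omega),
            if_neg (by omega)]
          unfold TR
          rw [if_neg (by omega), if_pos rfl]
          omega
        · rw [mR]
          simp only
          omega
    · rw [cS1, cS2]
      omega

end Pool.Agent.BKG
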